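import Mathlib

/-!
# Bases adapted to an integer valued valuation
-/

set_option autoImplicit false

namespace Pool.Agent.Helper31.RP

open Module

/-- A valuation with values in `ℤ`, such that elements of the same value are proportional up to
higher order, has linearly independent vectors of increasing values. -/
theorem exists_adapted {F V : Type*} [Field F] [AddCommGroup V] [Module F V]
    [FiniteDimensional F V] (w : V → ℤ)
    (h1 : ∀ (c : F) (x : V), c ≠ 0 → x ≠ 0 → w (c • x) = w x)
    (h2 : ∀ x y : V, x ≠ 0 → y ≠ 0 → x + y ≠ 0 → min (w x) (w y) ≤ w (x + y))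
    (h3 : ∀ x y : V, x ≠ 0 → y ≠ 0 → w x = w y → ∃ c : F, x - c • y = 0 ∨ w x < w (x - c • y))
    (m : ℕ) : ∀ (W : Submodule F V), m ≤ finrank F W → ∀ k₀ : ℤ, (∀ x ∈ W, x ≠ 0 → k₀ ≤ w x) →
      ∃ b : Fin m → V, LinearIndependent F b ∧ (∀ i, b i ∈ W) ∧
        ∀ i : Fin m, k₀ + (i : ℕ) ≤ w (b i) := by
  induction m with
  | zero =>
    intro W _ k₀ _
    exact ⟨fun i => i.elim0, linearIndependent_empty_type, fun i => i.elim0, fun i => i.elim0⟩
  | succ m ih =>
    intro W hW k₀ hk
    -- a vector of minimal value
    obtain ⟨x₀, hx₀, hx₀0⟩ : ∃ x ∈ W, x ≠ 0 := by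
      by_contra hcon
      push Not at hcon
      have : W = ⊥ := by
        rw [Submodule.eq_bot_iff]
        exact hcon
      rw [this, finrank_bot] at hW
      omega
    have hex : ∃ n : ℕ, ∃ x ∈ W, x ≠ 0 ∧ w x = k₀ + n :=
      ⟨(w x₀ - k₀).toNat, x₀, hx₀, hx₀0, by have := hk x₀ hx₀ hx₀0; omega⟩
    classical
    obtain ⟨x₁, hx₁, hx₁0, hx₁w⟩ := Nat.find_spec hex
    have hmin : ∀ x ∈ W, x ≠ 0 → w x₁ ≤ w x := by
      intro x hx hx0
      by_contra hcon
      push Not at hcon
      have h4 := hk x hx hx0
      have h5 := Nat.find_min hex (m := (w x - k₀).toNat) (by omega)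
      exact h5 ⟨x, hx, hx0, by omega⟩
    -- the subspace of higher values
    let W' : Submodule F V :=
      { carrier := {x | x ∈ W ∧ (x = 0 ∨ w x₁ < w x)}
        zero_mem' := ⟨W.zero_mem, Or.inl rfl⟩
        add_mem' := by
          rintro x y ⟨hx, hx'⟩ ⟨hy, hy'⟩
          refine ⟨W.add_mem hx hy, ?_⟩
          rcases hx' with rfl | hx'
          · rw [zero_add]; exact hy'
          rcases hy' with rfl | hy'
          · rw [add_zero]; exact Or.inr hx'
          by_cases hxy : x + y = 0
          · exact Or.inl hxy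
          by_cases hx0 : x = 0
          · rw [hx0, zero_add]; exact Or.inr hy'
          by_cases hy0 : y = 0
          · rw [hy0, add_zero]; exact Or.inr hx'
          · exact Or.inr (lt_of_lt_of_le (lt_min hx' hy') (h2 x y hx0 hy0 hxy))
        smul_mem' := by
          rintro c x ⟨hx, hx'⟩
          refine ⟨W.smul_mem c hx, ?_⟩
          by_cases hc : c = 0
          · left; rw [hc, zero_smul]
          by_cases hx0 : x = 0
          · left; rw [hx0, smul_zero]
          · right
            rw [h1 c x hc hx0]
            exact hx'.resolve_left hx0 }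
    have hmem : ∀ x, x ∈ W' ↔ x ∈ W ∧ (x = 0 ∨ w x₁ < w x) := fun x => Iff.rfl
    have hle : W ≤ W' ⊔ Submodule.span F {x₁} := by
      intro x hx
      by_cases hx0 : x = 0
      · rw [hx0]; exact Submodule.zero_mem _
      rcases eq_or_lt_of_le (hmin x hx hx0) with h5 | h5
      · obtain ⟨c, hc⟩ := h3 x x₁ hx0 hx₁0 h5.symm
        have h6 : x - c • x₁ ∈ W' := by
          rw [hmem]
          refine ⟨W.sub_mem hx (W.smul_mem c hx₁), ?_⟩
          rcases hc with hc | hc
          · exact Or.inl hc
          · right; rw [h5]; exact hc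
        have h7 : x = (x - c • x₁) + c • x₁ := by abel
        rw [h7]
        exact Submodule.add_mem_sup h6
          (Submodule.smul_mem _ _ (Submodule.mem_span_singleton_self x₁))
      · exact Submodule.mem_sup_left ((hmem x).2 ⟨hx, Or.inr h5⟩)
    have hdim : m ≤ finrank F W' := by
      have h5 := Submodule.finrank_mono hle
      have h6 := Submodule.finrank_add_le_finrank_add_finrank W' (Submodule.span F {x₁})
      have h7 := finrank_span_singleton (K := F) hx₁0
      omega
    obtain ⟨b, hb1, hb2, hb3⟩ := ih W' hdim (w x₁ + 1) (fun x hx hx0 => by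
      have := ((hmem x).1 hx).2.resolve_left hx0
      omega)
    refine ⟨Fin.cons x₁ b, ?_, ?_, ?_⟩
    · rw [linearIndependent_finCons]
      refine ⟨hb1, fun hcon => ?_⟩
      have h5 : Submodule.span F (Set.range b) ≤ W' := by
        rw [Submodule.span_le]
        rintro _ ⟨i, rfl⟩
        exact hb2 i
      have h6 := ((hmem x₁).1 (h5 hcon)).2
      rcases h6 with h6 | h6
      · exact hx₁0 h6
      · exact lt_irrefl _ h6
    · intro i
      refine Fin.cases ?_ (fun j => ?_) i
      · exact hx₁
      · exact ((hmem _).1 (hb2 j)).1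
    · intro i
      refine Fin.cases ?_ (fun j => ?_) i
      · have := hk x₁ hx₁ hx₁0
        simpa using this
      · have h5 := hb3 j
        have h6 := hk x₁ hx₁ hx₁0
        rw [Fin.cons_succ, Fin.val_succ]
        push_cast
        omega

end Pool.Agent.Helper31.RP
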