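import Pool.Agent.Helper65.RP.Ord
import Pool.Agent.Helper31.RP.Adapt

/-!
# The upper bound for the dimension (Subspace theorem)
-/

set_option autoImplicit false
set_option linter.unusedSectionVars false
set_option linter.unusedVariables false

namespace Pool.Agent.Helper31.RP

open MvPolynomial Filter Topology
open Pool.Agent.Helper65.RP

section D
variable {K Kb Ω : Type} [Field K] [Field Kb] [Algebra K Kb] [IsAlgClosure K Kb]
  [NormedField Ω] [IsAlgClosed Ω] [Algebra K Ω] [Algebra Kb Ω] [IsScalarTower K Kb Ω] {N : ℕ}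
  {𝒰 : Ultrafilter ℕ} {s : ℕ → ℝ} {z : ℕ → Fin N → K} {i₀ : Fin N}

/-- Monomials of degree at most `D` whose classes form a basis. -/
theorem exists_monomials (I : Ideal (MvPolynomial (Fin N) K)) (D : ℕ) :
    ∃ m : Fin (rho I D) → (Fin N →₀ ℕ), (∀ j, ((m j).sum fun _ e => e) ≤ D) ∧
      LinearIndependent K (fun j => Ideal.Quotient.mkₐ K I (monomial (m j) (1 : K))) := by
  classical
  set t : Set (MvPolynomial (Fin N) K ⧸ I) :=
    (fun m : Fin N →₀ ℕ => Ideal.Quotient.mkₐ K I (monomial m (1 : K))) ''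
      {m : Fin N →₀ ℕ | (m.sum fun _ e => e) ≤ D} with ht
  have hspan : (restrictTotalDegree (Fin N) K D).map (Ideal.Quotient.mkₐ K I).toLinearMap =
      Submodule.span K t := by
    rw [restrictTotalDegree, restrictSupport_eq_span, Submodule.map_span, Set.image_image]
    rfl
  have hfin : t.Finite := by
    refine Set.Finite.image _ ?_
    refine (Set.Finite.subset (Finset.finite_toSet
      ((Finset.univ : Finset (Fin N)).finsupp fun _ => Finset.range (D + 1))) ?_)
    intro m hm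
    rw [Set.mem_ofPred_eq] at hm
    rw [Finset.mem_coe, Finset.mem_finsupp_iff]
    refine ⟨Finset.subset_univ _, fun i _ => ?_⟩
    rw [Finset.mem_range]
    have h1 : m.sum (fun _ e => e) = ∑ i, m i := Finsupp.sum_fintype _ _ (by simp)
    rw [h1] at hm
    have h2 := Finset.single_le_sum (f := fun i => m i) (fun i _ => Nat.zero_le _)
      (Finset.mem_univ i)
    omega
  have : Module.Finite K (Submodule.span K t) := FiniteDimensional.span_of_finite K hfin
  have hrho : rho I D = Module.finrank K (Submodule.span K t) := by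
    rw [rho, hspan]
  obtain ⟨b, hb1, _, hb3⟩ := Submodule.exists_fun_fin_finrank_span_eq K t
  have hb4 : ∀ i, ∃ m : Fin N →₀ ℕ, (m.sum fun _ e => e) ≤ D ∧
      Ideal.Quotient.mkₐ K I (monomial m (1 : K)) = b i := by
    intro i
    obtain ⟨m, hm, hmb⟩ := hb1 i
    exact ⟨m, hm, hmb⟩
  choose m hm1 hm2 using hb4
  rw [hrho]
  refine ⟨m, hm1, ?_⟩
  have : (fun j => Ideal.Quotient.mkₐ K I (monomial (m j) (1 : K))) = b := funext hm2
  rw [this]
  exact hb3

/-- The polynomial with coefficient vector `c`. -/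
noncomputable def pol {M : ℕ} (m : Fin M → (Fin N →₀ ℕ)) (c : Fin M → Kb) :
    MvPolynomial (Fin N) Kb :=
  ∑ j, C (c j) * MvPolynomial.map (algebraMap K Kb) (monomial (m j) (1 : K))

variable {M : ℕ} (m : Fin M → (Fin N →₀ ℕ))

theorem ev_pol (c : Fin M → Kb) (n : ℕ) :
    ev Ω z (pol (K := K) m c) n = ∑ j, algebraMap Kb Ω (c j) *
      algebraMap K Ω (eval (z n) (monomial (m j) (1 : K))) := by
  rw [pol, ev_sum]
  refine Finset.sum_congr rfl fun j _ => ?_
  rw [ev_mul, ev_C, ev_map]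

theorem pol_smul (t : Kb) (c : Fin M → Kb) : pol (K := K) m (t • c) = C t * pol (K := K) m c := by
  rw [pol, pol, Finset.mul_sum]
  refine Finset.sum_congr rfl fun j _ => ?_
  rw [Pi.smul_apply, smul_eq_mul, C_mul, mul_assoc]

theorem pol_add (c c' : Fin M → Kb) :
    pol (K := K) m (c + c') = pol (K := K) m c + pol (K := K) m c' := by
  rw [pol, pol, pol, ← Finset.sum_add_distrib]
  refine Finset.sum_congr rfl fun j _ => ?_
  rw [Pi.add_apply, C_add, add_mul]

theorem pol_sub (c c' : Fin M → Kb) :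
    pol (K := K) m (c - c') = pol (K := K) m c - pol (K := K) m c' := by
  have := pol_add (K := K) m (c - c') c'
  rw [sub_add_cancel] at this
  rw [this, add_sub_cancel_right]

theorem totalDegree_pol {D : ℕ} (hm : ∀ j, ((m j).sum fun _ e => e) ≤ D) (c : Fin M → Kb) :
    (pol (K := K) m c).totalDegree ≤ D := by
  refine totalDegree_finsetSum_le fun j _ => ?_
  refine (totalDegree_mul _ _).trans ?_
  rw [totalDegree_C, zero_add, map_monomial, map_one]
  exact (totalDegree_monomial_le _ _).trans (hm j)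

theorem pol_injective (hm : LinearIndependent K
      (fun j => Ideal.Quotient.mkₐ K (van 𝒰 z) (monomial (m j) (1 : K)))) {c : Fin M → Kb}
    (hc : ∀ᶠ n in (𝒰 : Filter ℕ), ev Ω z (pol (K := K) m c) n = 0) : c = 0 := by
  have key : ∀ l : Kb →ₗ[K] K, ∀ j, l (c j) = 0 := by
    intro l
    have h1 : ∑ j, l (c j) • (monomial (m j) (1 : K)) ∈ van 𝒰 z := by
      rw [mem_van]
      filter_upwards [hc] with n hn
      rw [ev_eq_zero_iff, pol, map_sum] at hn
      have h2 := congrArg l hn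
      rw [map_sum, map_zero] at h2
      rw [map_sum, ← h2]
      refine Finset.sum_congr rfl fun j _ => ?_
      rw [map_mul, eval_C, MvPolynomial.smul_eval]
      have h3 : eval (fun i => algebraMap K Kb (z n i))
          (MvPolynomial.map (algebraMap K Kb) (monomial (m j) (1 : K))) =
          algebraMap K Kb (eval (z n) (monomial (m j) (1 : K))) := by
        rw [eval_map]
        exact (eval₂_comp_left (algebraMap K Kb) (RingHom.id K) (z n) _).symm
      rw [h3, mul_comm (c j), ← Algebra.smul_def, map_smul, smul_eq_mul, mul_comm]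
    have h2 : ∑ j, l (c j) • Ideal.Quotient.mkₐ K (van 𝒰 z) (monomial (m j) (1 : K)) = 0 := by
      have h3 : Ideal.Quotient.mkₐ K (van 𝒰 z) (∑ j, l (c j) • (monomial (m j) (1 : K))) = 0 :=
        Ideal.Quotient.eq_zero_iff_mem.2 h1
      rw [map_sum] at h3
      rw [← h3]
      exact Finset.sum_congr rfl fun j _ => (map_smul _ _ _).symm
    exact Fintype.linearIndependent_iff.1 hm _ h2
  funext j
  exact (Module.forall_dual_apply_eq_zero_iff K (c j)).1 fun l => key l j

/-- The basis adapted to the order. -/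
theorem exists_basis (h : Lev Ω 𝒰 s z i₀) {a : ℕ} (ha : 0 < a)
    (hval : ∀ p : MvPolynomial (Fin N) Kb, (∀ᶠ n in (𝒰 : Filter ℕ), ev Ω z p n = 0) ∨
        ∃ k : ℤ, HasOrd 𝒰 s (ev Ω z p) ((k : ℝ) / a))
    (hconst : ∀ (p q : MvPolynomial (Fin N) Kb) (α : ℝ), HasOrd 𝒰 s (ev Ω z p) α →
      HasOrd 𝒰 s (ev Ω z q) α → ∃ c : Kb, c ≠ 0 ∧
        ((∀ᶠ n in (𝒰 : Filter ℕ), ev Ω z (p - C c * q) n = 0) ∨
          ∃ β : ℝ, α < β ∧ HasOrd 𝒰 s (ev Ω z (p - C c * q)) β))
    {D : ℕ} (hmD : ∀ j, ((m j).sum fun _ e => e) ≤ D)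
    (hm : LinearIndependent K
      (fun j => Ideal.Quotient.mkₐ K (van 𝒰 z) (monomial (m j) (1 : K)))) :
    ∃ (b : Fin M → Fin M → Kb) (w : Fin M → ℝ), LinearIndependent Kb b ∧
      (∀ i : Fin M, -(D : ℝ) + ((i : ℕ) : ℝ) / a ≤ w i) ∧
      ∀ i, HasOrd 𝒰 s (ev Ω z (pol (K := K) m (b i))) (w i) := by
  classical
  have ha' : (0 : ℝ) < a := by exact_mod_cast ha
  have hk : ∀ c : Fin M → Kb, ∃ k : ℤ, c ≠ 0 →
      HasOrd 𝒰 s (ev Ω z (pol (K := K) m c)) ((k : ℝ) / a) := by
    intro c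
    by_cases hc : c = 0
    · exact ⟨0, fun h => absurd hc h⟩
    · rcases hval (pol (K := K) m c) with h1 | ⟨k, hk⟩
      · exact absurd (pol_injective m hm h1) hc
      · exact ⟨k, fun _ => hk⟩
  choose w hw using hk
  have hwge : ∀ c : Fin M → Kb, c ≠ 0 → -((a * D : ℕ) : ℤ) ≤ w c := by
    intro c hc
    have h1 := GeOrd.le_of_hasOrd h.hs (h.geOrd_ev (pol (K := K) m c) (totalDegree_pol m hmD c))
      (hw c hc)
    rw [le_div_iff₀ ha'] at h1
    have h2 : ((-((a * D : ℕ) : ℤ) : ℤ) : ℝ) ≤ (w c : ℝ) := by push_cast; linarith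
    exact_mod_cast h2
  have hdivinj : ∀ k k' : ℤ, (k : ℝ) / a = (k' : ℝ) / a → k = k' := by
    intro k k' hkk
    rw [div_left_inj' ha'.ne'] at hkk
    exact_mod_cast hkk
  obtain ⟨b, hb1, _, hb3⟩ := exists_adapted (F := Kb) w
    (fun t c ht hc => by
      have h1 : HasOrd 𝒰 s (ev Ω z (pol (K := K) m (t • c))) (0 + (w c : ℝ) / a) := by
        refine ((hasOrd_const (𝒰 := 𝒰) (s := s) h.hs (c := algebraMap Kb Ω t) ?_).mul
          (hw c hc)).congr (Eventually.of_forall fun n => ?_)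
        · exact (map_ne_zero _).2 ht
        · rw [pol_smul, ev_mul, ev_C]
      have h2 := h1.unique (hw (t • c) (smul_ne_zero ht hc))
      rw [zero_add] at h2
      exact (hdivinj _ _ h2).symm)
    (fun x y hx hy hxy => by
      have h1 : GeOrd 𝒰 s (ev Ω z (pol (K := K) m (x + y))) (((min (w x) (w y) : ℤ) : ℝ) / a) := by
        refine (((((hw x hx).ge h.hs).mono h.hs ?_).add h.hs
          (((hw y hy).ge h.hs).mono h.hs ?_))).congr (Eventually.of_forall fun n => ?_)
        · refine div_le_div_of_nonneg_right ?_ ha'.le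
          exact_mod_cast min_le_left _ _
        · refine div_le_div_of_nonneg_right ?_ ha'.le
          exact_mod_cast min_le_right _ _
        · rw [pol_add, ev_add]
      have h2 := GeOrd.le_of_hasOrd h.hs h1 (hw _ hxy)
      rw [div_le_div_iff_of_pos_right ha'] at h2
      exact_mod_cast h2)
    (fun x y hx hy hxy => by
      have h1 := hw y hy
      rw [← hxy] at h1
      obtain ⟨c, _, hc⟩ := hconst _ _ _ (hw x hx) h1
      refine ⟨c, ?_⟩
      rw [← pol_smul, ← pol_sub] at hc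
      rcases hc with hc | ⟨β, hβ, hc⟩
      · exact Or.inl (pol_injective m hm hc)
      · right
        have hne : x - c • y ≠ 0 := by
          intro h0
          obtain ⟨n, hn⟩ := hc.1.exists
          apply hn
          rw [h0, ev_pol]
          simp
        have h2 := hc.unique (hw _ hne)
        rw [h2, div_lt_div_iff_of_pos_right ha'] at hβ
        exact_mod_cast hβ)
    M ⊤ (by rw [finrank_top, Module.finrank_fin_fun]) (-((a * D : ℕ) : ℤ))
    (fun x _ hx => hwge x hx)
  refine ⟨b, fun i => (w (b i) : ℝ) / a, hb1, fun i => ?_, fun i => hw (b i) ?_⟩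
  · rw [le_div_iff₀ ha', add_mul, div_mul_cancel₀ _ ha'.ne']
    have := hb3 i
    have h2 : ((-((a * D : ℕ) : ℤ) + ((i : ℕ) : ℤ) : ℤ) : ℝ) ≤ (w (b i) : ℝ) := by
      exact_mod_cast this
    push_cast at h2
    linarith
  · exact hb1.ne_zero i

theorem card_le (h : Lev Ω 𝒰 s z i₀) {Λ : Type} [Fintype Λ] (Z : PD K Ω Λ) {g : Λ → ℝ}
    (hg : Grow Z g 𝒰 s z) {a : ℕ} (ha : 0 < a)
    (hval : ∀ p : MvPolynomial (Fin N) Kb, (∀ᶠ n in (𝒰 : Filter ℕ), ev Ω z p n = 0) ∨
        ∃ k : ℤ, HasOrd 𝒰 s (ev Ω z p) ((k : ℝ) / a))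
    (hconst : ∀ (p q : MvPolynomial (Fin N) Kb) (α : ℝ), HasOrd 𝒰 s (ev Ω z p) α →
      HasOrd 𝒰 s (ev Ω z q) α → ∃ c : Kb, c ≠ 0 ∧
        ((∀ᶠ n in (𝒰 : Filter ℕ), ev Ω z (p - C c * q) n = 0) ∨
          ∃ β : ℝ, α < β ∧ HasOrd 𝒰 s (ev Ω z (p - C c * q)) β)) (D : ℕ)
    (hmD : ∀ j, ((m j).sum fun _ e => e) ≤ D)
    (hm : LinearIndependent K
      (fun j => Ideal.Quotient.mkₐ K (van 𝒰 z) (monomial (m j) (1 : K)))) :
    (M : ℝ) ≤ 2 * a * Z.bd g * D + 1 := by
  classical
  have ha' : (0 : ℝ) < a := by exact_mod_cast ha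
  have hn' : (0 : ℝ) < Z.n := by exact_mod_cast Z.hn
  have hsum0 : 0 ≤ ∑ l, g l := Finset.sum_nonneg fun l _ => hg.pos l
  have hbd : 1 ≤ Z.bd g := by
    rw [PD.bd]
    have : 0 ≤ (∑ l, g l) / Z.n := div_nonneg hsum0 hn'.le
    linarith
  by_contra hcon
  push Not at hcon
  have hD0 : (0 : ℝ) ≤ D := Nat.cast_nonneg D
  have hM1 : (1 : ℝ) < M := by
    have : 0 ≤ 2 * (a : ℝ) * Z.bd g * D := by positivity
    linarith
  have hM2 : 2 ≤ M := by
    have : 1 < M := by exact_mod_cast hM1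
    omega
  obtain ⟨b, w, hb, hbw, hord⟩ := exists_basis m h ha hval hconst hmD hm
  -- the sum of the orders
  have hsumw : -(D : ℝ) * M + M * (M - 1) / (2 * a) ≤ ∑ i, w i := by
    have h1 : ∑ i : Fin M, (-(D : ℝ) + ((i : ℕ) : ℝ) / a) ≤ ∑ i, w i :=
      Finset.sum_le_sum fun i _ => hbw i
    have h2 : ∑ i : Fin M, (-(D : ℝ) + ((i : ℕ) : ℝ) / a) =
        -(D : ℝ) * M + M * (M - 1) / (2 * a) := by
      rw [Finset.sum_add_distrib, Finset.sum_const, Finset.card_univ, Fintype.card_fin,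
        nsmul_eq_mul, ← Finset.sum_div, Fin.sum_univ_eq_sum_range (fun i => (i : ℝ)) M]
      have h3 : ∑ i ∈ Finset.range M, (i : ℝ) = M * (M - 1) / 2 := by
        have h4 := Finset.sum_range_id_mul_two M
        have h5 : ((∑ i ∈ Finset.range M, i : ℕ) : ℝ) * 2 = M * (M - 1) := by
          have h6 : ((M - 1 : ℕ) : ℝ) = (M : ℝ) - 1 := by
            rw [Nat.cast_sub (by omega), Nat.cast_one]
          rw [← h6]
          exact_mod_cast h4
        push_cast at h5
        linarith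
      rw [h3]
      field_simp
    linarith
  -- parameters
  set η : ℝ := ((M : ℝ) - 1) / (2 * a) - Z.bd g * D with hη
  have hη0 : 0 < η := by
    rw [hη, sub_pos, lt_div_iff₀ (by positivity)]
    nlinarith
  set δ : ℝ := Z.n * M * η / 2 with hδ
  have hδ0 : 0 < δ := by positivity
  set cc : ℝ := Z.n * M + M * D * Fintype.card Λ + 1 with hcc
  have hcc0 : 0 < cc := by positivity
  set ε : ℝ := δ / cc with hε
  have hε0 : 0 < ε := by positivity
  set B : ℝ := (∑ i, |w i|) + ε + (∑ l, D * (g l + ε)) with hB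
  have hgl : ∀ l, 0 ≤ (D : ℝ) * (g l + ε) := fun l =>
    mul_nonneg hD0 (add_nonneg (hg.pos l) hε0.le)
  have hwB : ∀ i, |w i| + ε ≤ B := by
    intro i
    have h1 := Finset.single_le_sum (f := fun i => |w i|) (fun i _ => abs_nonneg (w i))
      (Finset.mem_univ i)
    have h2 : 0 ≤ ∑ l, (D : ℝ) * (g l + ε) := Finset.sum_nonneg fun l _ => hgl l
    linarith
  have hgB : ∀ l, (D : ℝ) * (g l + ε) ≤ B := by
    intro l
    have h1 := Finset.single_le_sum (f := fun l => (D : ℝ) * (g l + ε)) (fun l _ => hgl l)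
      (Finset.mem_univ l)
    have h2 : 0 ≤ ∑ i, |w i| := Finset.sum_nonneg fun i _ => abs_nonneg _
    linarith
  have hB0 : 0 ≤ B := by
    have h1 : 0 ≤ ∑ i, |w i| := Finset.sum_nonneg fun i _ => abs_nonneg _
    have h2 : 0 ≤ ∑ l, (D : ℝ) * (g l + ε) := Finset.sum_nonneg fun l _ => hgl l
    linarith
  -- the matrix
  set A : Matrix (Fin M) (Fin M) Ω := Matrix.of fun i j => algebraMap Kb Ω (b i j) with hA
  have hAalg : ∀ i j, IsAlgebraic K (A i j) := by
    intro i j
    have h1 : Algebra.IsAlgebraic K Kb := IsAlgClosure.isAlgebraic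
    exact (h1.isAlgebraic (b i j)).algebraMap
  have hAdet : A.det ≠ 0 := by
    have h1 : A = (Matrix.of b).map (algebraMap Kb Ω) := rfl
    rw [h1, ← RingHom.mapMatrix_apply, ← RingHom.map_det]
    rw [Ne, map_eq_zero]
    have h2 : LinearIndependent Kb (Matrix.of b).row := hb
    have h3 := Matrix.linearIndependent_rows_iff_isUnit.1 h2
    exact ((Matrix.isUnit_iff_isUnit_det _).1 h3).ne_zero
  obtain ⟨𝒲, hW1, hW2⟩ := Z.sub M A hM2 hAalg hAdet δ B hδ0
  set y : ℕ → Fin M → K := fun n j => eval (z n) (monomial (m j) (1 : K)) with hy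
  have hyeq : ∀ n j, y n j = ∏ i, z n i ^ (m j) i := by
    intro n j
    simp only [hy]
    rw [eval_monomial, one_mul, Finsupp.prod_fintype _ _ (by simp)]
  have hmem : ∀ᶠ n in (𝒰 : Filter ℕ), ∃ W ∈ 𝒲, y n ∈ W := by
    have hup : ∀ᶠ n in (𝒰 : Filter ℕ), ∀ i, ‖ev Ω z (pol (K := K) m (b i)) n‖ ≤
        Real.exp (-(w i - ε) * s n) :=
      eventually_all.2 fun i => (hord i).ge h.hs ε hε0
    filter_upwards [hup, hg.int, hg.le ε hε0, eventually_pos h.hs] with n h1 h2 h3 h4
    have hpow : ∀ x : ℝ, (Real.exp (s n)) ^ x = Real.exp (x * s n) := by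
      intro x
      rw [← Real.exp_mul, mul_comm]
    refine hW2 (Real.exp (s n)) (fun i => Real.exp (-(w i - ε) * s n))
      (fun l => Real.exp (D * (g l + ε) * s n)) (y n) (Real.one_le_exp h4.le) ?_ ?_ ?_ ?_ ?_ ?_
    · intro i
      rw [hyeq]
      exact Subring.prod_mem _ fun i _ => Subring.pow_mem _ (h2 i) _
    · intro i
      rw [hpow, hpow, Real.exp_le_exp, Real.exp_le_exp]
      have h5 := hwB i
      have h6 := neg_abs_le (w i)
      have h7 := le_abs_self (w i)
      constructor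
      · exact mul_le_mul_of_nonneg_right (by linarith) h4.le
      · exact mul_le_mul_of_nonneg_right (by linarith) h4.le
    · intro l
      rw [hpow, hpow, Real.exp_le_exp, Real.exp_le_exp]
      have h5 := hgB l
      have h6 := hgl l
      constructor
      · exact mul_le_mul_of_nonneg_right (by linarith) h4.le
      · exact mul_le_mul_of_nonneg_right (by linarith) h4.le
    · intro i
      have h5 := h1 i
      rw [ev_pol] at h5
      exact h5
    · intro l j
      rw [hyeq, map_prod]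
      simp only [map_pow]
      set E : ℝ := Real.exp ((g l + ε) * s n) with hE
      have hE1 : 1 ≤ E := Real.one_le_exp (mul_nonneg (add_nonneg (hg.pos l) hε0.le) h4.le)
      calc ∏ i, (Z.abv l) (z n i) ^ (m j) i ≤ ∏ i, E ^ (m j) i := by
            refine Finset.prod_le_prod (fun i _ => pow_nonneg (AbsoluteValue.nonneg _ _) _)
              fun i _ => ?_
            exact pow_le_pow_left₀ (AbsoluteValue.nonneg _ _) (h3 l i) _
        _ = E ^ (∑ i, (m j) i) := (Finset.prod_pow_eq_pow_sum _ _ _)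
        _ ≤ E ^ D := by
            refine pow_le_pow_right₀ hE1 ?_
            have h5 := hmD j
            rwa [Finsupp.sum_fintype _ _ (by simp)] at h5
        _ = Real.exp (D * (g l + ε) * s n) := by
            rw [hE, ← Real.exp_nat_mul]
            congr 1
            ring
    · -- the main inequality
      rw [hpow]
      have e1 : ∏ i, Real.exp (-(w i - ε) * s n) = Real.exp ((-(∑ i, w i) + M * ε) * s n) := by
        rw [← Real.exp_sum, ← Finset.sum_mul]
        congr 2
        rw [Finset.sum_neg_distrib, Finset.sum_sub_distrib, Finset.sum_const, Finset.card_univ,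
          Fintype.card_fin, nsmul_eq_mul]
        ring
      have e2 : ∏ l, Real.exp (D * (g l + ε) * s n) ^ M =
          Real.exp (M * D * ((∑ l, g l) + Fintype.card Λ * ε) * s n) := by
        rw [Finset.prod_pow, ← Real.exp_sum, ← Finset.sum_mul, ← Real.exp_nat_mul]
        congr 1
        rw [← Finset.mul_sum, Finset.sum_add_distrib, Finset.sum_const, Finset.card_univ,
          nsmul_eq_mul]
        ring
      rw [e1, e2, ← Real.exp_nat_mul, ← Real.exp_add, Real.exp_le_exp]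
      have e3 : (Z.n : ℝ) * ((-(∑ i, w i) + M * ε) * s n) +
          M * D * ((∑ l, g l) + Fintype.card Λ * ε) * s n =
          (Z.n * (-(∑ i, w i) + M * ε) + M * D * ((∑ l, g l) + Fintype.card Λ * ε)) * s n := by
        ring
      rw [e3]
      refine mul_le_mul_of_nonneg_right ?_ h4.le
      -- `ε cc = δ`
      have e4 : ε * cc = δ := div_mul_cancel₀ _ hcc0.ne'
      have e5 : (Z.n : ℝ) * (Z.bd g) = Z.n + ∑ l, g l := by
        rw [PD.bd, mul_add, mul_one, mul_div_cancel₀ _ hn'.ne']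
      have e6 : 2 * δ = Z.n * M * η := by rw [hδ]; ring
      have e7 : (Z.n : ℝ) * M * η = Z.n * (M * (M - 1) / (2 * a)) - M * D * (Z.n * Z.bd g) := by
        rw [hη]
        field_simp
      have e8 : (Z.n : ℝ) * (-(D : ℝ) * M + M * (M - 1) / (2 * a)) ≤ Z.n * ∑ i, w i :=
        mul_le_mul_of_nonneg_left hsumw hn'.le
      rw [e5] at e7
      rw [hcc] at e4
      nlinarith
  obtain ⟨W, hW, hWm⟩ := exists_eventually_mem 𝒲 hmem
  have hWlt : W < ⊤ := lt_top_iff_ne_top.2 (hW1 W hW)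
  obtain ⟨l, hl, hWl⟩ := Submodule.exists_le_ker_of_lt_top W hWlt
  have hcoef : ∀ x : Fin M → K, l x = ∑ j, l (Pi.single j 1) * x j := by
    intro x
    conv_lhs => rw [pi_eq_sum_univ' x]
    rw [map_sum]
    refine Finset.sum_congr rfl fun j _ => ?_
    rw [map_smul, smul_eq_mul, mul_comm]
  have hvan : ∑ j, l (Pi.single j 1) • (monomial (m j) (1 : K)) ∈ van 𝒰 z := by
    rw [mem_van]
    filter_upwards [hWm] with n hn
    have h1 := hWl hn
    rw [LinearMap.mem_ker, hcoef] at h1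
    rw [map_sum, ← h1]
    refine Finset.sum_congr rfl fun j _ => ?_
    rw [MvPolynomial.smul_eval]
  have hlin : ∀ j, l (Pi.single j 1) = 0 := by
    have h3 : Ideal.Quotient.mkₐ K (van 𝒰 z)
        (∑ j, l (Pi.single j 1) • (monomial (m j) (1 : K))) = 0 :=
      Ideal.Quotient.eq_zero_iff_mem.2 hvan
    rw [map_sum] at h3
    refine Fintype.linearIndependent_iff.1 hm _ ?_
    rw [← h3]
    exact Finset.sum_congr rfl fun j _ => (map_smul _ _ _).symm
  apply hl
  ext j
  simp [hlin j]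

/-- F, with the statement D2 as a hypothesis -/
theorem upper_bound_of (h : Lev Ω 𝒰 s z i₀) {Λ : Type} [Fintype Λ] (Z : PD K Ω Λ) {g : Λ → ℝ}
    (hg : Grow Z g 𝒰 s z) {a : ℕ} (ha : 0 < a)
    (hval : ∀ p : MvPolynomial (Fin N) Kb, (∀ᶠ n in (𝒰 : Filter ℕ), ev Ω z p n = 0) ∨
        ∃ k : ℤ, HasOrd 𝒰 s (ev Ω z p) ((k : ℝ) / a))
    (hconst : ∀ (p q : MvPolynomial (Fin N) Kb) (α : ℝ), HasOrd 𝒰 s (ev Ω z p) α →
      HasOrd 𝒰 s (ev Ω z q) α → ∃ c : Kb, c ≠ 0 ∧
        ((∀ᶠ n in (𝒰 : Filter ℕ), ev Ω z (p - C c * q) n = 0) ∨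
          ∃ β : ℝ, α < β ∧ HasOrd 𝒰 s (ev Ω z (p - C c * q)) β)) (D : ℕ) :
    (rho (van 𝒰 z) D : ℝ) ≤ 2 * a * Z.bd g * D + 1 := by
  obtain ⟨m, hmD, hm⟩ := exists_monomials (van 𝒰 z) D
  exact card_le m h Z hg ha hval hconst D hmD hm

end D

end Pool.Agent.Helper31.RP
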